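import Pool.Agent.PTF.Rel
import Pool.Agent.PTL.All
import Pool.Agent.PTL.LatBody

/-!
# Tilings of finite local complexity by arbitrary compact sets

An ultrafilter turns a compact set into a set which covers the plane exactly.
-/

set_option autoImplicit false

namespace Pool.Agent.PTF

open Pool.Agent.PTR Pool.Agent.PTL Topology Filter
open Pool.Agent.PTR.OL (V ii dif difs FLC InHull)

/-- An ultrafilter converging to `0` which avoids all translates of the boundary. -/
lemma exists_ultra {C : Set V} (hC : IsClosed C) :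
    ∃ U : Ultrafilter V, (U : Filter V) ≤ 𝓝 0 ∧ ∀ z, ∀ᶠ w in (U : Filter V), z + w ∉ frontier C := by
  have hne : (𝓝 (0 : V) ⊓ residual V).NeBot := by
    rw [Filter.inf_neBot_iff]
    intro s hs s' hs'
    obtain ⟨O, hO, hO1, hO2⟩ := mem_nhds_iff.1 hs
    obtain ⟨w, hw, hw'⟩ := (dense_of_mem_residual hs').inter_open_nonempty O hO1 ⟨0, hO2⟩
    exact ⟨w, hO hw, hw'⟩
  refine ⟨Ultrafilter.of (𝓝 (0 : V) ⊓ residual V), (Ultrafilter.of_le _).trans inf_le_left,
    fun z => ?_⟩
  refine (Ultrafilter.of_le _).trans inf_le_right ?_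
  have h1 : IsOpen {w : V | z + w ∉ frontier C} := by
    have hc : Continuous (fun w : V => z + w) := by fun_prop
    exact (isClosed_frontier.preimage hc).isOpen_compl
  refine residual_of_dense_open h1 ?_
  have h2 : Dense (frontier C)ᶜ := by
    rw [← interior_eq_empty_iff_dense_compl]
    exact interior_frontier hC
  exact h2.preimage (Homeomorph.addLeft z).isOpenMap

/-- For a compact set `C` there is a bounded set `C'` such that the locally finite tilings by `C`
are the exact covers by `C'`. -/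
theorem exact_of {C : Set V} (hC : IsCompact C) :
    ∃ C' : Set V, (∃ r : ℝ, ∀ z ∈ C', ‖z‖ ≤ r) ∧
      (∀ T : Set V, (∀ R : ℝ, {t : V | t ∈ T ∧ ‖t‖ ≤ R}.Finite) → PSQ.Tiling C T → ECov C' T) ∧
      ∀ T : Set V, ECov C' T → PSQ.Tiling C T := by
  have hcl : IsClosed C := hC.isClosed
  obtain ⟨U, hU0, hU⟩ := exists_ultra hcl
  obtain ⟨r, hr⟩ := hC.isBounded.exists_norm_le
  have hsub : ∀ z, (∀ᶠ w in (U : Filter V), z + w ∈ C) → z ∈ C := by
    intro z hz
    have h1 : Tendsto (fun w : V => z + w) (U : Filter V) (𝓝 z) := by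
      have h2 : Tendsto (fun w : V => z + w) (𝓝 0) (𝓝 (z + 0)) := by
        have hc : Continuous (fun w : V => z + w) := by fun_prop
        exact hc.tendsto 0
      rw [add_zero] at h2
      exact h2.mono_left hU0
    exact hcl.mem_of_tendsto h1 hz
  have hint : ∀ z ∈ interior C, ∀ᶠ w in (U : Filter V), z + w ∈ C := by
    intro z hz
    refine hU0 ?_
    have hc : Continuous (fun w : V => z + w) := by fun_prop
    have h1 : IsOpen ((fun w : V => z + w) ⁻¹' interior C) := isOpen_interior.preimage hc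
    refine mem_nhds_iff.2 ⟨(fun w : V => z + w) ⁻¹' interior C, ?_, h1, ?_⟩
    · intro w hw
      exact interior_subset (s := C) hw
    · show z + 0 ∈ interior C
      rwa [add_zero]
  refine ⟨{z | ∀ᶠ w in (U : Filter V), z + w ∈ C}, ⟨r, fun z hz => hr z (hsub z hz)⟩, ?_, ?_⟩
  · intro T hfin hT z
    obtain ⟨h1, h2⟩ := (ptil_iff C T).1 hT
    have hex : ∀ᶠ w in (U : Filter V), ∃ t ∈ {t : V | t ∈ T ∧ ‖t‖ ≤ ‖z‖ + 1 + r},
        z - t + w ∈ C := by
      have h3 : ∀ᶠ w in (U : Filter V), ‖w‖ ≤ 1 := by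
        refine hU0 ?_
        have := Metric.closedBall_mem_nhds (0 : V) one_pos
        filter_upwards [this] with w hw
        simpa using hw
      filter_upwards [h3] with w hw
      obtain ⟨t, ht, hz⟩ := h1 (z + w)
      refine ⟨t, ⟨ht, ?_⟩, ?_⟩
      · have h5 := hr _ hz
        calc ‖t‖ = ‖z + w - (z + w - t)‖ := by congr 1; abel
          _ ≤ ‖z + w‖ + ‖z + w - t‖ := norm_sub_le _ _
          _ ≤ ‖z‖ + ‖w‖ + ‖z + w - t‖ := by gcongr; exact norm_add_le _ _
          _ ≤ ‖z‖ + 1 + r := by gcongr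
      · rwa [show z - t + w = z + w - t by abel]
    have hex2 : ∃ t ∈ {t : V | t ∈ T ∧ ‖t‖ ≤ ‖z‖ + 1 + r},
        ∀ᶠ w in (U : Filter V), z - t + w ∈ C := by
      have h3 : (⋃ t ∈ {t : V | t ∈ T ∧ ‖t‖ ≤ ‖z‖ + 1 + r}, {w : V | z - t + w ∈ C}) ∈ U := by
        refine Filter.mem_of_superset hex ?_
        rintro w ⟨t, ht, hw⟩
        simp only [Set.mem_iUnion, exists_prop]
        exact ⟨t, ht, hw⟩
      obtain ⟨t, ht, h4⟩ := (Ultrafilter.finite_biUnion_mem_iff (hfin _)).1 h3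
      exact ⟨t, ht, h4⟩
    obtain ⟨t, ⟨ht, -⟩, htz⟩ := hex2
    refine ⟨t, ⟨ht, htz⟩, ?_⟩
    rintro t' ⟨ht', htz'⟩
    have htz'' : ∀ᶠ w in (U : Filter V), z - t' + w ∈ C := htz'
    obtain ⟨w, ⟨hw1, hw2⟩, hw3, hw4⟩ := ((htz''.and htz).and ((hU (z - t')).and
      (hU (z - t)))).exists
    have hi : ∀ y, y ∈ C → y ∉ frontier C → y ∈ interior C := by
      intro y hy hy'
      rw [hcl.frontier_eq, Set.mem_sdiff] at hy'
      push Not at hy'
      exact hy' hy
    refine h2 t' ht' t ht (z + w) ?_ ?_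
    · rw [show z + w - t' = z - t' + w by abel]
      exact hi _ hw1 hw3
    · rw [show z + w - t = z - t + w by abel]
      exact hi _ hw2 hw4
  · intro T h
    rw [ptil_iff]
    refine ⟨?_, ?_⟩
    · intro z
      obtain ⟨t, ⟨ht, hz⟩, -⟩ := h z
      exact ⟨t, ht, hsub _ hz⟩
    · intro t ht t' ht' z hz hz'
      exact (h z).unique ⟨ht, hint _ hz⟩ ⟨ht', hint _ hz'⟩

/-- **Tilings of finite local complexity by arbitrary compact sets.** -/
theorem flc_body {C T : Set V} (hC : IsCompact C) (hT : PSQ.Tiling C T) (hF : FLC T) :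
    ∃ T', PSQ.Tiling C T' ∧ PSQ.Periodic T' := by
  obtain ⟨C', hb, h1, h2⟩ := exact_of hC
  have h3 := h1 T (flc_ball hF) hT
  obtain ⟨L, hL, hrel⟩ := flc_rel hb h3 hF
  obtain ⟨T', hc, u, v, huv, hu, hv⟩ := p_FLCR C' hb T h3 hF L hL hrel
  exact ⟨T', h2 T' hc, u, v, huv, per_ptr hu, per_ptr hv⟩

end Pool.Agent.PTF
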