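import Pool.Agent.PTL.P_NZD
import Pool.Agent.PTR.Rel

/-!
# Every tiling of finite local complexity by a bounded set has a finite relation

The collar lemma and a dimension count.
-/

set_option autoImplicit false

namespace Pool.Agent.PTF

open Pool.Agent.PTR
open Pool.Agent.PTR.OL (V ii dif difs FLC InHull)

/-! ## Box sums -/

/-- The sums `∑ m x • x`, `x ∈ D`, `m x ≤ n`. -/
noncomputable def bx (D : Finset V) (n : ℕ) : Finset V := by
  classical
  exact (Fintype.piFinset fun _ : D => Finset.range (n + 1)).image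
    fun m => ∑ x : D, m x • (x : V)

lemma mem_bx {D : Finset V} {n : ℕ} {v : V} :
    v ∈ bx D n ↔ ∃ m : D → ℕ, (∀ x, m x ≤ n) ∧ ∑ x : D, m x • (x : V) = v := by
  classical
  unfold bx
  simp only [Finset.mem_image, Fintype.mem_piFinset, Finset.mem_range, Nat.lt_succ_iff]

lemma card_bx (D : Finset V) (n : ℕ) : (bx D n).card ≤ (n + 1) ^ D.card := by
  classical
  unfold bx
  refine Finset.card_image_le.trans ?_
  rw [Fintype.card_piFinset]
  simp

lemma zero_mem_bx (D : Finset V) (n : ℕ) : (0 : V) ∈ bx D n :=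
  mem_bx.2 ⟨fun _ => 0, fun _ => Nat.zero_le _, by simp⟩

lemma bx_mono (D : Finset V) {m n : ℕ} (h : m ≤ n) : bx D m ⊆ bx D n := by
  intro v hv
  obtain ⟨f, hf, e⟩ := mem_bx.1 hv
  exact mem_bx.2 ⟨f, fun x => (hf x).trans h, e⟩

lemma bx_add {D : Finset V} {m n : ℕ} {v w : V} (hv : v ∈ bx D m) (hw : w ∈ bx D n) :
    v + w ∈ bx D (m + n) := by
  obtain ⟨f, hf, e⟩ := mem_bx.1 hv
  obtain ⟨g, hg, e'⟩ := mem_bx.1 hw
  refine mem_bx.2 ⟨fun x => f x + g x, fun x => add_le_add (hf x) (hg x), ?_⟩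
  rw [← e, ← e', ← Finset.sum_add_distrib]
  exact Finset.sum_congr rfl fun x _ => add_smul _ _ _

lemma mem_bx_one {D : Finset V} {v : V} (hv : v ∈ D) : v ∈ bx D 1 := by
  classical
  refine mem_bx.2 ⟨fun x => if x = ⟨v, hv⟩ then 1 else 0, fun x => by
    simp only
    split_ifs <;> omega, ?_⟩
  rw [Finset.sum_eq_single (⟨v, hv⟩ : D)]
  · simp
  · intro b _ hb
    simp [hb]
  · intro h
    exact absurd (Finset.mem_univ _) h

lemma norm_bx {D : Finset V} {n : ℕ} {v : V} (hv : v ∈ bx D n) :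
    ‖v‖ ≤ n * ∑ d ∈ D, ‖d‖ := by
  obtain ⟨f, hf, e⟩ := mem_bx.1 hv
  rw [← e, ← Finset.sum_coe_sort D (fun d => ‖d‖), Finset.mul_sum]
  refine (norm_sum_le _ _).trans (Finset.sum_le_sum fun x _ => ?_)
  rw [← Nat.cast_smul_eq_nsmul ℝ, norm_smul]
  have h1 : ‖(f x : ℝ)‖ = f x := by simp
  rw [h1]
  gcongr
  exact hf x

lemma chain_bx {D : Finset V} (f : ℕ → V) (m : ℕ) (h : ∀ i < m, f (i + 1) - f i ∈ D) :
    f m - f 0 ∈ bx D m := by
  induction m with
  | zero => simpa using zero_mem_bx D 0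
  | succ m ih =>
    have h1 := ih fun i hi => h i (by omega)
    have h2 := mem_bx_one (h m (by omega))
    have h3 := bx_add h1 h2
    rwa [show f m - f 0 + (f (m + 1) - f m) = f (m + 1) - f 0 by abel] at h3

/-- Multiples of a nonzero element. -/
lemma card_bx_ge {D : Finset V} {d : V} (hd : d ∈ D) (h0 : d ≠ 0) (n : ℕ) :
    n + 1 ≤ (bx D n).card := by
  classical
  have h1 : (Finset.range (n + 1)).image (fun k : ℕ => k • d) ⊆ bx D n := by
    intro v hv
    obtain ⟨k, hk, rfl⟩ := Finset.mem_image.1 hv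
    have hk' : k ≤ n := by
      have := Finset.mem_range.1 hk
      omega
    refine bx_mono D hk' ?_
    clear hk hk' hv
    induction k with
    | zero => simpa using zero_mem_bx D 0
    | succ k ih =>
      rw [succ_nsmul]
      exact bx_add ih (mem_bx_one hd)
  have h2 := Finset.card_le_card h1
  rw [Finset.card_image_of_injective, Finset.card_range] at h2
  · exact h2
  · intro i j hij
    simp only at hij
    have h3 : ((i : ℤ) - j) • d = 0 := by
      rw [sub_smul, natCast_zsmul, natCast_zsmul, hij, sub_self]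
    rcases smul_eq_zero.1 h3 with h4 | h4
    · omega
    · exact absurd h4 h0

/-! ## Doubling -/

lemma doubling (b : ℕ → ℕ) (d : ℕ) (h1 : ∀ n, 1 ≤ b n) (h2 : ∀ n, b n ≤ (n + 1) ^ d) {q : ℕ}
    (hq : 2 ≤ q) (N0 : ℕ) : ∃ n, N0 ≤ n ∧ b (q * n) ≤ q ^ (d + 1) * b n := by
  by_contra hcon
  push Not at hcon
  set N := N0 + 1 with hN
  have h3 : ∀ i : ℕ, q ^ ((d + 1) * i) ≤ b (q ^ i * N) := by
    intro i
    induction i with
    | zero => simpa using h1 N
    | succ i ih =>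
      have h4 : N0 ≤ q ^ i * N := by
        have : 1 ≤ q ^ i := Nat.one_le_pow _ _ (by omega)
        nlinarith
      have h5 := hcon _ h4
      have h6 : q ^ ((d + 1) * (i + 1)) = q ^ (d + 1) * q ^ ((d + 1) * i) := by
        rw [← pow_add]
        congr 1
        ring
      have h7 : q ^ (i + 1) * N = q * (q ^ i * N) := by rw [pow_succ]; ring
      rw [h6, h7]
      exact (Nat.mul_le_mul_left _ ih).trans h5.le
  have h4 : ∀ i : ℕ, q ^ i ≤ (2 * N) ^ d := by
    intro i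
    have h5 := (h3 i).trans (h2 _)
    have h6 : q ^ i * N + 1 ≤ q ^ i * (2 * N) := by
      have : 1 ≤ q ^ i := Nat.one_le_pow _ _ (by omega)
      nlinarith
    have h7 : (q ^ i * N + 1) ^ d ≤ (q ^ i * (2 * N)) ^ d := Nat.pow_le_pow_left h6 d
    have h8 : q ^ ((d + 1) * i) = (q ^ i) ^ d * q ^ i := by
      rw [← pow_succ, ← pow_mul]
      congr 1
      ring
    rw [h8] at h5
    have h9 := h5.trans h7
    rw [mul_pow] at h9
    exact Nat.le_of_mul_le_mul_left h9 (pow_pos (pow_pos (by omega) i) d)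
  obtain ⟨i, hi⟩ := pow_unbounded_of_one_lt ((2 * N) ^ d) (show 1 < q by omega)
  exact absurd (h4 i) (not_le.2 hi)

/-! ## Pigeonhole -/

lemma pigeon (S : Finset V) (A : ℕ → Finset V) {n : ℕ} (hn : 0 < n)
    (hA : ∀ j < n, A j ⊆ S) (hd : ∀ i < n, ∀ j < n, i ≠ j → Disjoint (A i) (A j)) :
    ∃ j < n, n * (A j).card ≤ S.card := by
  classical
  by_contra hcon
  push Not at hcon
  have h1 : ∑ j ∈ Finset.range n, (A j).card ≤ S.card := by
    rw [← Finset.card_biUnion]
    · refine Finset.card_le_card ?_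
      intro x hx
      obtain ⟨j, hj, hx⟩ := Finset.mem_biUnion.1 hx
      exact hA j (Finset.mem_range.1 hj) hx
    · intro i hi j hj hij
      exact hd i (Finset.mem_range.1 hi) j (Finset.mem_range.1 hj) hij
  have h2 : ∑ _j ∈ Finset.range n, S.card < ∑ j ∈ Finset.range n, n * (A j).card :=
    Finset.sum_lt_sum_of_nonempty ⟨0, Finset.mem_range.2 hn⟩
      fun j hj => hcon j (Finset.mem_range.1 hj)
  rw [Finset.sum_const, Finset.card_range, smul_eq_mul, ← Finset.mul_sum] at h2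
  have h3 := Nat.lt_of_mul_lt_mul_left h2
  omega

/-! ## Local finiteness and chains -/

lemma flc_ball {T : Set V} (hF : FLC T) (R : ℝ) : {t : V | t ∈ T ∧ ‖t‖ ≤ R}.Finite := by
  rcases Set.eq_empty_or_nonempty {t : V | t ∈ T ∧ ‖t‖ ≤ R} with h0 | ⟨t0, ht0, hn0⟩
  · rw [h0]; exact Set.finite_empty
  · refine ((hF (2 * R)).image (fun d => t0 + d)).subset ?_
    rintro t ⟨ht, hn⟩
    refine ⟨t - t0, ⟨?_, t0, ht0, ?_⟩, ?_⟩
    · have := norm_sub_le t t0
      linarith
    · rwa [add_sub_cancel]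
    · simp

lemma chain_exists {C T : Set V} {r : ℝ} (hr : ∀ z ∈ C, ‖z‖ ≤ r) (hr0 : 0 ≤ r)
    (hT : ECov C T) {D : Finset V} (hD : ∀ d, ‖d‖ ≤ 2 * r + 1 → (∃ t ∈ T, t + d ∈ T) → d ∈ D)
    {t t' : V} (ht : t ∈ T) (ht' : t' ∈ T) {m : ℕ} (hm : ‖t' - t‖ ≤ m) :
    t' - t ∈ bx D m := by
  rcases Nat.eq_zero_or_pos m with h0 | h0
  · subst h0
    have h1 : t' - t = 0 := by
      rw [← norm_eq_zero]
      exact le_antisymm (by simpa using hm) (norm_nonneg _)
    rw [h1]
    exact zero_mem_bx D 0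
  · have hm0 : (0 : ℝ) < m := by exact_mod_cast h0
    have hex : ∀ i : ℕ, ∃ s ∈ T, ‖t + ((i : ℝ) / m) • (t' - t) - s‖ ≤ r ∧
        (i = 0 → s = t) ∧ (i = m → s = t') := by
      intro i
      by_cases hi : i = 0
      · subst hi
        refine ⟨t, ht, by simpa using hr0, fun _ => rfl, fun h => absurd h h0.ne⟩
      · by_cases hi' : i = m
        · subst hi'
          refine ⟨t', ht', ?_, fun h => absurd h hi, fun _ => rfl⟩
          rw [div_self hm0.ne', one_smul]
          simpa using hr0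
        · obtain ⟨s, ⟨hs, hs'⟩, -⟩ := hT (t + ((i : ℝ) / m) • (t' - t))
          exact ⟨s, hs, hr _ hs', fun h => absurd h hi, fun h => absurd h hi'⟩
    choose f hf1 hf2 hf3 hf4 using hex
    have h1 := chain_bx (D := D) f m (fun i _ => by
      refine hD _ ?_ ⟨f i, hf1 i, by rw [add_sub_cancel]; exact hf1 _⟩
      have h2 := hf2 i
      have h3 := hf2 (i + 1)
      have h4 : f (i + 1) - f i = (t + ((i : ℝ) / m) • (t' - t) - f i) -
          (t + (((i + 1 : ℕ) : ℝ) / m) • (t' - t) - f (i + 1)) +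
          ((1 : ℝ) / m) • (t' - t) := by
        have : ((i + 1 : ℕ) : ℝ) / m = (i : ℝ) / m + 1 / m := by push_cast; ring
        rw [this, add_smul]
        abel
      rw [h4]
      have h5 : ‖((1 : ℝ) / m) • (t' - t)‖ ≤ 1 := by
        rw [norm_smul, Real.norm_of_nonneg (by positivity)]
        rw [one_div, inv_mul_le_iff₀ hm0, mul_one]
        exact hm
      calc _ ≤ ‖(t + ((i : ℝ) / m) • (t' - t) - f i) -
          (t + (((i + 1 : ℕ) : ℝ) / m) • (t' - t) - f (i + 1))‖ +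
          ‖((1 : ℝ) / m) • (t' - t)‖ := norm_add_le _ _
        _ ≤ (‖t + ((i : ℝ) / m) • (t' - t) - f i‖ +
          ‖t + (((i + 1 : ℕ) : ℝ) / m) • (t' - t) - f (i + 1)‖) + 1 := by
            gcongr
            exact norm_sub_le _ _
        _ ≤ 2 * r + 1 := by linarith)
    rwa [hf3 0 rfl, hf4 m rfl] at h1

/-! ## The collar lemma -/

/-- No finite signed combination of translates of a nonempty bounded set vanishes. -/
lemma no_comb {C : Set V} (hb : ∃ r : ℝ, ∀ z ∈ C, ‖z‖ ≤ r) (hC : C.Nonempty) (F : Finset V)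
    (k : V → ℚ) (h : ∀ z, ∑ μ ∈ F, k μ * Set.indicator C (fun _ => (1 : ℚ)) (z - μ) = 0) :
    ∀ μ ∈ F, k μ = 0 := by
  classical
  by_contra hcon
  push Not at hcon
  obtain ⟨μ1, hμ1, hk1⟩ := hcon
  set G := F.filter (fun μ => k μ ≠ 0) with hG
  obtain ⟨θ, hθ⟩ := PTL.exists_sep (G : Set V) G.finite_toSet
  have hGn : G.Nonempty := ⟨μ1, Finset.mem_filter.2 ⟨hμ1, hk1⟩⟩
  obtain ⟨t₀, ht₀, hm⟩ := G.exists_max_image (fun t : V => t.1 + θ * t.2) hGn
  obtain ⟨ε, hε, hgap⟩ : ∃ ε : ℝ, 0 < ε ∧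
      ∀ t ∈ G, t ≠ t₀ → t.1 + θ * t.2 ≤ t₀.1 + θ * t₀.2 - ε := by
    rcases (G.erase t₀).eq_empty_or_nonempty with h0 | h0
    · exact ⟨1, one_pos, fun t ht hne => by
        have : t ∈ G.erase t₀ := Finset.mem_erase.2 ⟨hne, ht⟩
        rw [h0] at this
        exact absurd this (Finset.notMem_empty t)⟩
    · obtain ⟨t₁, ht₁, hm1⟩ := (G.erase t₀).exists_max_image (fun t : V => t.1 + θ * t.2) h0
      obtain ⟨hne1, ht1⟩ := Finset.mem_erase.1 ht₁
      have hlt : t₁.1 + θ * t₁.2 < t₀.1 + θ * t₀.2 :=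
        lt_of_le_of_ne (hm t₁ ht1) fun he => hne1 (hθ t₁ ht1 t₀ ht₀ he)
      refine ⟨(t₀.1 + θ * t₀.2) - (t₁.1 + θ * t₁.2), by linarith, fun t ht hne => ?_⟩
      have := hm1 t (Finset.mem_erase.2 ⟨hne, ht⟩)
      linarith
  obtain ⟨r, hr⟩ := hb
  have hbdd : BddAbove ((fun z : V => z.1 + θ * z.2) '' C) := by
    refine ⟨r + |θ| * r, ?_⟩
    rintro _ ⟨z, hz, rfl⟩
    have h1 : |z.1| ≤ r := (norm_fst_le z).trans (hr z hz)
    have h2 : |z.2| ≤ r := (norm_snd_le z).trans (hr z hz)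
    have h3 : θ * z.2 ≤ |θ| * r := by
      calc θ * z.2 ≤ |θ * z.2| := le_abs_self _
        _ = |θ| * |z.2| := abs_mul _ _
        _ ≤ |θ| * r := by gcongr
    have h4 := le_abs_self z.1
    simp only
    linarith
  have hne : ((fun z : V => z.1 + θ * z.2) '' C).Nonempty := hC.image _
  obtain ⟨_, ⟨c, hc, rfl⟩, hlt⟩ := exists_lt_of_lt_csSup hne
    (show sSup ((fun z : V => z.1 + θ * z.2) '' C) - ε <
      sSup ((fun z : V => z.1 + θ * z.2) '' C) by linarith)
  have h1 := h (t₀ + c)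
  obtain ⟨hF0, hk0⟩ := Finset.mem_filter.1 ht₀
  rw [Finset.sum_eq_single t₀] at h1
  · rw [add_sub_cancel_left, Set.indicator_of_mem hc, mul_one] at h1
    exact hk0 h1
  · intro t ht hne'
    by_cases hk : k t = 0
    · rw [hk, zero_mul]
    · rw [Set.indicator_of_notMem, mul_zero]
      intro hz
      have h5 := le_csSup hbdd ⟨_, hz, rfl⟩
      have h6 := hgap t (Finset.mem_filter.2 ⟨ht, hk⟩) hne'
      simp only [Prod.fst_sub, Prod.snd_sub, Prod.fst_add, Prod.snd_add] at h5 hlt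
      nlinarith
  · intro h2
    exact absurd hF0 h2

/-- **Collar lemma.** -/
lemma collar {C T : Set V} {r : ℝ} (hr : ∀ z ∈ C, ‖z‖ ≤ r) (hT : ECov C T) (hF : FLC T)
    {ι : Type*} (s : Finset ι) (c : ι → ℚ) (lam : ι → V) (hc : ∑ i ∈ s, c i = 0) (R : ℝ)
    (h : ∀ μ : V, R ≤ ‖μ‖ → ‖μ‖ < R + 2 * r + 1 →
      ∑ i ∈ s, c i * Set.indicator T (fun _ => (1 : ℚ)) (μ + lam i) = 0) (μ : V) (hμ : ‖μ‖ < R) :
    ∑ i ∈ s, c i * Set.indicator T (fun _ => (1 : ℚ)) (μ + lam i) = 0 := by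
  classical
  set kap : V → ℚ := fun μ => ∑ i ∈ s, c i * Set.indicator T (fun _ => (1 : ℚ)) (μ + lam i)
    with hkap
  -- the finite set of all points with `‖μ‖ < R` which can carry mass
  have hfin : {μ : V | ‖μ‖ < R + 2 * r + 1 ∧ ∃ i ∈ s, μ + lam i ∈ T}.Finite := by
    have h1 : {μ : V | ‖μ‖ < R + 2 * r + 1 ∧ ∃ i ∈ s, μ + lam i ∈ T} ⊆
        ⋃ i ∈ s, (fun t => t - lam i) '' {t : V | t ∈ T ∧ ‖t‖ ≤ R + 2 * r + 1 + ‖lam i‖} := by
      rintro μ ⟨h1, i, hi, h2⟩
      simp only [Set.mem_iUnion, exists_prop]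
      refine ⟨i, hi, μ + lam i, ⟨h2, ?_⟩, by simp⟩
      have := norm_add_le μ (lam i)
      linarith
    exact (Set.Finite.biUnion s.finite_toSet fun i _ => (flc_ball hF _).image _).subset h1
  have hCn : C.Nonempty := by
    obtain ⟨t, ⟨-, h1⟩, -⟩ := hT 0
    exact ⟨_, h1⟩
  -- total mass over each point
  have hmass : ∀ z : V, ‖z‖ < R + r → ∑ μ ∈ hfin.toFinset,
      kap μ * Set.indicator C (fun _ => (1 : ℚ)) (z - μ) = 0 := by
    intro z hz
    have h1 : ∀ i ∈ s, ∑ μ ∈ hfin.toFinset, Set.indicator T (fun _ => (1 : ℚ)) (μ + lam i) *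
        Set.indicator C (fun _ => (1 : ℚ)) (z - μ) = 1 := by
      intro i hi
      obtain ⟨t, ⟨ht, htz⟩, hu⟩ := hT (z + lam i)
      have htz' : z - (t - lam i) ∈ C := by
        rwa [show z - (t - lam i) = z + lam i - t by abel]
      rw [Finset.sum_eq_single (t - lam i)]
      · rw [sub_add_cancel, Set.indicator_of_mem ht, Set.indicator_of_mem htz', mul_one]
      · intro μ _ hne
        by_cases h2 : μ + lam i ∈ T
        · rw [Set.indicator_of_notMem (s := C), mul_zero]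
          intro h3
          have h4 := hu (μ + lam i) ⟨h2, by
            rwa [show z + lam i - (μ + lam i) = z - μ by abel]⟩
          exact hne (by rw [← h4]; abel)
        · rw [Set.indicator_of_notMem h2, zero_mul]
      · intro h2
        exfalso
        apply h2
        rw [Set.Finite.mem_toFinset]
        refine ⟨?_, i, hi, by rwa [sub_add_cancel]⟩
        have h3 := hr _ htz'
        have h4 : ‖t - lam i‖ ≤ ‖z‖ + ‖z - (t - lam i)‖ := by
          have := norm_sub_le z (z - (t - lam i))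
          rwa [sub_sub_cancel] at this
        linarith
    calc ∑ μ ∈ hfin.toFinset, kap μ * Set.indicator C (fun _ => (1 : ℚ)) (z - μ)
        = ∑ μ ∈ hfin.toFinset, ∑ i ∈ s, c i * (Set.indicator T (fun _ => (1 : ℚ)) (μ + lam i) *
            Set.indicator C (fun _ => (1 : ℚ)) (z - μ)) := by
          refine Finset.sum_congr rfl fun μ _ => ?_
          rw [hkap, Finset.sum_mul]
          exact Finset.sum_congr rfl fun i _ => mul_assoc _ _ _
      _ = ∑ i ∈ s, c i * ∑ μ ∈ hfin.toFinset, (Set.indicator T (fun _ => (1 : ℚ)) (μ + lam i) *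
            Set.indicator C (fun _ => (1 : ℚ)) (z - μ)) := by
          rw [Finset.sum_comm]
          exact Finset.sum_congr rfl fun i _ => (Finset.mul_sum _ _ _).symm
      _ = ∑ i ∈ s, c i := Finset.sum_congr rfl fun i hi => by rw [h1 i hi, mul_one]
      _ = 0 := hc
  -- the restriction to the ball
  have hz0 : ∀ μ ∈ hfin.toFinset.filter (fun μ => ‖μ‖ < R), kap μ = 0 := by
    refine no_comb ⟨r, hr⟩ hCn _ kap fun z => ?_
    by_cases hz : ‖z‖ < R + r
    · rw [← hmass z hz, Finset.sum_filter]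
      refine Finset.sum_congr rfl fun μ hμ => ?_
      split_ifs with h1
      · rfl
      · by_cases h2 : z - μ ∈ C
        · have h3 := hr _ h2
          have h4 : kap μ = 0 := by
            refine h μ (not_lt.1 h1) ?_
            exact ((Set.Finite.mem_toFinset _).1 hμ).1
          rw [h4, zero_mul]
        · rw [Set.indicator_of_notMem h2, mul_zero]
    · refine Finset.sum_eq_zero fun μ hμ => ?_
      rw [Set.indicator_of_notMem, mul_zero]
      intro h2
      have h3 := hr _ h2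
      have h4 := (Finset.mem_filter.1 hμ).2
      apply hz
      have h5 := norm_add_le μ (z - μ)
      rw [add_sub_cancel] at h5
      linarith
  by_cases hmem : ∃ i ∈ s, μ + lam i ∈ T
  · refine hz0 μ (Finset.mem_filter.2 ⟨?_, hμ⟩)
    rw [Set.Finite.mem_toFinset]
    refine ⟨?_, hmem⟩
    have hr0 : 0 ≤ r := by
      obtain ⟨z, hz⟩ := hCn
      exact (norm_nonneg z).trans (hr z hz)
    linarith
  · push Not at hmem
    exact Finset.sum_eq_zero fun i hi => by
      rw [Set.indicator_of_notMem (hmem i hi), mul_zero]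

/-! ## The dimension count -/

lemma dim_count {E : Type*} [AddCommGroup E] [Module ℚ E] {α β : Type*} [Fintype α] [Fintype β]
    (L : β → E →ₗ[ℚ] ℚ) (K : α → E →ₗ[ℚ] ℚ) (h : ∀ x, (∀ i, L i x = 0) → ∀ j, K j x = 0)
    (hc : Fintype.card β < Fintype.card α) :
    ∃ a : α → ℚ, (∃ j, a j ≠ 0) ∧ ∀ x, ∑ j, a j * K j x = 0 := by
  classical
  have h1 : ∀ j, K j ∈ Submodule.span ℚ (Set.range L) := by
    intro j
    refine mem_span_of_iInf_ker_le_ker fun x hx => ?_
    rw [Submodule.mem_iInf] at hx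
    exact h x (fun i => hx i) j
  have h2 : ¬ LinearIndependent ℚ (fun j => (⟨K j, h1 j⟩ : Submodule.span ℚ (Set.range L))) := by
    intro hli
    have h3 : Module.Finite ℚ (Submodule.span ℚ (Set.range L)) :=
      Module.Finite.span_of_finite ℚ (Set.finite_range L)
    have h4 := hli.fintype_card_le_finrank
    have h5 := finrank_range_le_card (R := ℚ) L
    unfold Set.finrank at h5
    omega
  rw [Fintype.not_linearIndependent_iff] at h2
  obtain ⟨a, ha, j, hj⟩ := h2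
  refine ⟨a, ⟨j, hj⟩, fun x => ?_⟩
  have h3 := congrArg (fun y : Submodule.span ℚ (Set.range L) => (y : E →ₗ[ℚ] ℚ) x) ha
  simpa using h3

lemma clear_den {α : Type*} [Fintype α] (a : α → ℚ) :
    ∃ (N : ℕ) (b : α → ℤ), 0 < N ∧ ∀ j, (b j : ℚ) = N * a j := by
  classical
  set N : ℕ := ∏ j, (a j).den with hN
  have h1 : ∀ j, ∃ b : ℤ, (b : ℚ) = N * a j := by
    intro j
    obtain ⟨k, hk⟩ : (a j).den ∣ N := Finset.dvd_prod_of_mem _ (Finset.mem_univ j)
    refine ⟨k * (a j).num, ?_⟩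
    have h2 : (a j) * ((a j).den : ℚ) = (a j).num := Rat.mul_den_eq_num (a j)
    rw [hk]
    push_cast
    rw [← h2]
    ring
  choose b hb using h1
  exact ⟨N, b, Finset.prod_pos fun j _ => (a j).den_pos, hb⟩

lemma ii_cast (T : Set V) (z : V) : ((ii T z : ℤ) : ℚ) = Set.indicator T (fun _ => (1 : ℚ)) z := by
  by_cases h : z ∈ T
  · rw [OL.ii_of_mem h, Set.indicator_of_mem h]; simp
  · rw [OL.ii_of_not h, Set.indicator_of_notMem h]; simp

/-- **The finite relation.** -/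
theorem flc_rel_int {C T : Set V} (hb : ∃ r : ℝ, ∀ z ∈ C, ‖z‖ ≤ r) (hT : ECov C T)
    (hF : FLC T) : ∃ (Φ : Finset V) (a : V → ℤ), (∃ φ ∈ Φ, a φ ≠ 0) ∧
      ∀ z, ∑ φ ∈ Φ, a φ * ii T (z + φ) = 0 := by
  classical
  obtain ⟨r, hr⟩ := hb
  obtain ⟨t1, ⟨ht1, ht1'⟩, -⟩ := hT 0
  have hr0 : 0 ≤ r := (norm_nonneg _).trans (hr _ ht1')
  set D : Finset V := (hF (2 * r + 1)).toFinset with hDdef
  have hD : ∀ d, ‖d‖ ≤ 2 * r + 1 → (∃ t ∈ T, t + d ∈ T) → d ∈ D := fun d h1 h2 =>
    (Set.Finite.mem_toFinset _).2 ⟨h1, h2⟩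
  have hchain : ∀ t ∈ T, ∀ t' ∈ T, ∀ m : ℕ, ‖t' - t‖ ≤ m → t' - t ∈ bx D m :=
    fun t ht t' ht' m hm => chain_exists hr hr0 hT hD ht ht' hm
  set δ : ℝ := ∑ d ∈ D, ‖d‖ with hδ
  have hδ0 : 0 ≤ δ := Finset.sum_nonneg fun d _ => norm_nonneg d
  -- a nonzero element of `D`
  obtain ⟨d0, hd0, hd0'⟩ : ∃ d ∈ D, d ≠ 0 := by
    by_contra hcon
    push Not at hcon
    have h0 : δ = 0 := Finset.sum_eq_zero fun d hd => by rw [hcon d hd, norm_zero]
    obtain ⟨t2, ⟨ht2, ht2'⟩, -⟩ := hT (r + ‖t1‖ + 1, 0)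
    obtain ⟨m, hm⟩ := exists_nat_ge ‖t2 - t1‖
    have h1 := norm_bx (hchain t1 ht1 t2 ht2 m hm)
    rw [← hδ, h0, mul_zero] at h1
    have h2 : t2 = t1 := sub_eq_zero.1 (norm_eq_zero.1 (le_antisymm h1 (norm_nonneg _)))
    rw [h2] at ht2'
    have h3 := hr _ ht2'
    have h4 : r + ‖t1‖ + 1 ≤ ‖((r + ‖t1‖ + 1, 0) : V)‖ := by
      have := norm_fst_le ((r + ‖t1‖ + 1, 0) : V)
      refine le_trans ?_ this
      exact le_abs_self _
    have h5 : ‖((r + ‖t1‖ + 1, 0) : V)‖ ≤ ‖((r + ‖t1‖ + 1, 0) : V) - t1‖ + ‖t1‖ := by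
      have := norm_add_le (((r + ‖t1‖ + 1, 0) : V) - t1) t1
      rwa [sub_add_cancel] at this
    linarith
  -- the parameters
  set w : ℝ := 2 * r + 1 with hw
  obtain ⟨q0, hq0⟩ := exists_nat_ge (2 * δ + 1 + w)
  have hq1 : 1 ≤ q0 := by
    have : (1 : ℝ) ≤ q0 := by linarith
    exact_mod_cast this
  set q : ℕ := q0 + 1 with hq
  set K : ℕ := q ^ (D.card + 1) with hK
  obtain ⟨n, hn, hdb⟩ := doubling (fun n => (bx D n).card) D.card
    (fun n => Finset.card_pos.2 ⟨0, zero_mem_bx D n⟩) (card_bx D) (show 2 ≤ q by omega) (2 * K + 2)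
  rw [← hK] at hdb
  have hn1 : 1 ≤ n := by omega
  have hn1' : (1 : ℝ) ≤ n := by exact_mod_cast hn1
  set R : ℕ → ℝ := fun j => n * δ + 1 + w * j with hR
  set A : ℕ → Finset V := fun j =>
    (bx D (q * n)).filter (fun μ => R j ≤ ‖μ‖ ∧ ‖μ‖ < R j + w) with hA
  have hw0 : 0 < w := by linarith
  have hdisj : ∀ i j : ℕ, i < j → Disjoint (A i) (A j) := by
    intro i j hij
    rw [Finset.disjoint_left]
    intro μ h1 h2
    have h3 := (Finset.mem_filter.1 h1).2.2
    have h4 := (Finset.mem_filter.1 h2).2.1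
    have h5 : (i : ℝ) + 1 ≤ j := by exact_mod_cast hij
    have h6 : R i + w ≤ R j := by
      simp only [hR]
      nlinarith
    linarith
  obtain ⟨j, hj, hcard⟩ := pigeon (bx D (q * n)) A (by omega : 0 < n)
    (fun j _ => Finset.filter_subset _ _) (fun i _ j _ hij => by
      rcases lt_or_gt_of_ne hij with h | h
      · exact hdisj i j h
      · exact (hdisj j i h).symm)
  have hbig := card_bx_ge hd0 hd0' n
  have hlt : (A j).card + 1 < (bx D n).card := by
    by_contra hcon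
    push Not at hcon
    have h1 : n * (A j).card ≤ K * (bx D n).card := hcard.trans hdb
    have h2 : (2 * K + 2) * (A j).card ≤ n * (A j).card := Nat.mul_le_mul_right _ hn
    have h3 : K * (bx D n).card ≤ K * ((A j).card + 1) := Nat.mul_le_mul_left _ hcon
    have h4 : (2 * K + 2) * (A j).card ≤ K * ((A j).card + 1) := by omega
    have h5 : 2 ≤ (A j).card := by omega
    nlinarith
  -- the collar
  have hRj : n * δ < R j := by
    simp only [hR]
    have : 0 ≤ w * j := mul_nonneg hw0.le (Nat.cast_nonneg j)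
    linarith
  have hRj2 : R j + w ≤ n * δ + 1 + w * n := by
    have : (j : ℝ) + 1 ≤ n := by exact_mod_cast hj
    simp only [hR]
    nlinarith
  set M : Type := {lam : V // ∃ φ ∈ bx D n, φ + lam ∈ T} with hM
  have hinA : ∀ (lam : M) (μ : V), R j ≤ ‖μ‖ → ‖μ‖ < R j + w → μ + lam.1 ∈ T → μ ∈ A j := by
    rintro ⟨lam, φ, hφ, hφT⟩ μ h1 h2 h3
    refine Finset.mem_filter.2 ⟨?_, h1, h2⟩
    have h4 := norm_bx hφ
    have h5 : ‖μ + lam - (φ + lam)‖ ≤ ((n * q0 : ℕ) : ℝ) := by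
      rw [add_sub_add_right_eq_sub]
      have h6 := norm_sub_le μ φ
      push_cast
      nlinarith
    have h6 := hchain _ hφT _ h3 _ h5
    rw [add_sub_add_right_eq_sub] at h6
    have h7 := bx_add hφ h6
    rwa [add_sub_cancel, show n + n * q0 = q * n by rw [hq]; ring] at h7
  -- the linear forms
  set ev : V → (M →₀ ℚ) →ₗ[ℚ] ℚ := fun μ =>
    Finsupp.linearCombination ℚ (fun lam : M => Set.indicator T (fun _ => (1 : ℚ)) (μ + lam.1))
    with hev
  have hev' : ∀ (μ : V) (x : M →₀ ℚ), ev μ x = ∑ i ∈ x.support,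
      x i * Set.indicator T (fun _ => (1 : ℚ)) (μ + i.1) := by
    intro μ x
    simp only [hev, Finsupp.linearCombination_apply, Finsupp.sum, smul_eq_mul]
  set L : Option (A j) → (M →₀ ℚ) →ₗ[ℚ] ℚ := fun o => match o with
    | none => Finsupp.linearCombination ℚ (fun _ : M => (1 : ℚ))
    | some μ => ev μ.1 with hL
  obtain ⟨a, ⟨φ0, ha⟩, hrel⟩ := dim_count L (fun φ : (bx D n) => ev φ.1) (by
    intro x hx φ
    have h1 : ∑ i ∈ x.support, x i = 0 := by
      have := hx none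
      simpa [hL, Finsupp.linearCombination_apply, Finsupp.sum] using this
    rw [hev']
    refine collar hr hT hF x.support x (fun i : M => i.1) h1 (R j) ?_ φ.1 ?_
    · intro μ h2 h3
      by_cases h4 : μ ∈ A j
      · have h5 := hx (some ⟨μ, h4⟩)
        rw [← hev']
        exact h5
      · refine Finset.sum_eq_zero fun i _ => ?_
        rw [Set.indicator_of_notMem, mul_zero]
        intro h5
        exact h4 (hinA i μ h2 (by rw [hw]; linarith) h5)
    · exact (norm_bx φ.2).trans_lt (by rw [← hδ]; exact hRj)) (by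
    rw [Fintype.card_option, Fintype.card_coe, Fintype.card_coe]
    exact hlt)
  obtain ⟨N, b, hN, hbN⟩ := clear_den a
  refine ⟨bx D n, fun v => if h : v ∈ bx D n then b ⟨v, h⟩ else 0, ⟨φ0.1, φ0.2, ?_⟩, ?_⟩
  · simp only [dif_pos φ0.2]
    intro h0
    have h1 := hbN φ0
    have h2 : b φ0 = 0 := h0
    rw [h2, Int.cast_zero] at h1
    rcases mul_eq_zero.1 h1.symm with h3 | h3
    · exact absurd h3 (by exact_mod_cast hN.ne')
    · exact ha h3
  · intro z
    by_cases hz : ∃ φ ∈ bx D n, φ + z ∈ T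
    · have h1 := hrel (Finsupp.single (⟨z, hz⟩ : M) 1)
      simp only [hev, Finsupp.linearCombination_single, one_smul] at h1
      have h2 : ((∑ φ ∈ bx D n, (if h : φ ∈ bx D n then b ⟨φ, h⟩ else 0) * ii T (z + φ) : ℤ) :
          ℚ) = 0 := by
        rw [← Finset.sum_coe_sort]
        push_cast
        rw [← mul_zero (N : ℚ), ← h1, Finset.mul_sum]
        refine Finset.sum_congr rfl fun φ _ => ?_
        rw [dif_pos φ.2, hbN, ii_cast, add_comm z]
        ring
      exact_mod_cast h2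
    · push Not at hz
      refine Finset.sum_eq_zero fun φ hφ => ?_
      rw [OL.ii_of_not (by rw [add_comm]; exact hz φ hφ), mul_zero]

/-- **The relation in product form.** -/
theorem flc_rel {C T : Set V} (hb : ∃ r : ℝ, ∀ z ∈ C, ‖z‖ ≤ r) (hT : ECov C T)
    (hF : FLC T) : ∃ L : List V, (∀ w ∈ L, w ≠ 0) ∧ difs L (ii T) = 0 := by
  classical
  obtain ⟨Φ, a, ⟨φ0, hφ0, ha⟩, hrel⟩ := flc_rel_int hb hT hF
  have h1 := OL.special (Φ.image fun v => -v) (fun v => a (-v)) (ii T) (fun z => by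
    by_cases h : z ∈ T
    · rw [OL.ii_of_mem h]; simp
    · rw [OL.ii_of_not h]; simp) (fun z => by
      rw [Finset.sum_image (fun x _ y _ h => neg_injective h)]
      simp only [neg_neg, sub_neg_eq_add]
      exact hrel z) (v₀ := -φ0) (Finset.mem_image_of_mem _ hφ0) (by rwa [neg_neg])
  refine ⟨_, ?_, h1⟩
  intro w hw
  obtain ⟨v, hv, rfl⟩ := List.mem_map.1 hw
  rw [Finset.mem_toList, Finset.mem_erase] at hv
  intro h0
  rcases smul_eq_zero.1 h0 with h2 | h2
  · exact absurd h2 (Nat.factorial_ne_zero _)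
  · exact hv.1 (sub_eq_zero.1 h2)

end Pool.Agent.PTF
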